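import Pool.Agent.helper38.OV.Spec

set_option autoImplicit false

namespace Pool.Agent.OV

open Finset Real Pool.Agent.AT Pool.Agent.helper85.FC Pool.Agent.OM

theorem AVH_re (M N ρ : ℕ) (hρ : ρ < M) (F : ℕ → ℝ) :
    ∑ x ∈ range (M * N) with x % M = ρ, F x = ∑ x ∈ range N, F (ρ + M * x) := by
  have hM : 0 < M := by omega
  symm
  refine Finset.sum_nbij' (fun x => ρ + M * x) (fun x => x / M) ?_ ?_ ?_ ?_ ?_
  · intro x hx
    have hx1 := Finset.mem_range.mp hx
    rw [Finset.mem_filter, Finset.mem_range]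
    refine ⟨?_, ?_⟩
    · have h1 : M * (x + 1) ≤ M * N := Nat.mul_le_mul_left M hx1
      have h2 : M * (x + 1) = M * x + M := by ring
      show ρ + M * x < M * N
      omega
    · show (ρ + M * x) % M = ρ
      rw [Nat.add_mul_mod_self_left, Nat.mod_eq_of_lt hρ]
  · intro x hx
    have hx1 := (Finset.mem_filter.mp hx).1
    rw [Finset.mem_range] at hx1 ⊢
    exact Nat.div_lt_of_lt_mul hx1
  · intro x _
    show (ρ + M * x) / M = x
    rw [Nat.add_mul_div_left _ _ hM, Nat.div_eq_of_lt hρ, zero_add]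
  · intro x hx
    have hx2 := (Finset.mem_filter.mp hx).2
    show ρ + M * (x / M) = x
    have h := Nat.mod_add_div x M
    omega
  · intro x _
    rfl

theorem AVH (hAV1 : OP.AV1_stmt) : AVH_stmt := by
  intro A B M N T κ ε hAB hB1 hM hκ hκ1 hε hε1 hT1 hT2 hT3 w hw hs ρ hρ y
  have hMz : (0 : ℤ) < (M : ℤ) := by exact_mod_cast hM
  set z' : ℤ := (B : ℤ) * ρ - (A : ℤ) * ((y % M : ℕ) : ℤ) with hz'
  set r : ℤ := z' % M with hr
  set z : ℤ := z' / M with hz
  have hr0 : 0 ≤ r := Int.emod_nonneg _ hMz.ne'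
  have hr1 : r < M := Int.emod_lt_of_pos _ hMz
  have hzr : r + M * z = z' := Int.emod_add_mul_ediv z' M
  obtain ⟨r', hr'⟩ := Int.eq_ofNat_of_zero_le hr0
  have hr'M : r' < M := by
    have : (r' : ℤ) < M := by rw [← hr']; exact hr1
    exact_mod_cast this
  have hyM : (y % M : ℕ) < M := Nat.mod_lt _ hM
  have hA0 : (0 : ℤ) ≤ (A : ℤ) := by positivity
  have hbz : (1 : ℤ) ≤ (B : ℤ) := by exact_mod_cast hB1
  have habz : (A : ℤ) ≤ (B : ℤ) := by exact_mod_cast hAB
  have hzabs : |z| ≤ (B : ℤ) := by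
    rw [abs_le]
    have hρz : (ρ : ℤ) ≤ M := by exact_mod_cast hρ.le
    have hρ0 : (0 : ℤ) ≤ (ρ : ℤ) := by positivity
    have hy0 : (0 : ℤ) ≤ ((y % M : ℕ) : ℤ) := by positivity
    have hy1 : ((y % M : ℕ) : ℤ) ≤ M := by exact_mod_cast hyM.le
    have h1 : (B : ℤ) * ρ ≤ (B : ℤ) * M := mul_le_mul_of_nonneg_left hρz (by linarith)
    have h2 : (A : ℤ) * ((y % M : ℕ) : ℤ) ≤ (B : ℤ) * M :=
      mul_le_mul habz hy1 hy0 (by linarith)
    have h3 : 0 ≤ (B : ℤ) * ρ := by positivity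
    have h4 : 0 ≤ (A : ℤ) * ((y % M : ℕ) : ℤ) := by positivity
    constructor
    · rw [hz]
      apply Int.le_ediv_of_mul_le hMz
      have : -(B : ℤ) * (M : ℤ) = -((B : ℤ) * M) := by ring
      rw [this]
      linarith
    · rw [hz]
      have h5 : z' ≤ (B : ℤ) * M := by linarith
      calc z' / M ≤ ((B : ℤ) * M) / M := Int.ediv_le_ediv hMz h5
        _ = (B : ℤ) := Int.mul_ediv_cancel _ hMz.ne'
  set g : ℤ → ℝ := fun u => w (r + M * u) with hg
  have hsum : ε * ((B : ℝ) * N) ≤ ∑ u ∈ range (B * N), g (u : ℤ) := by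
    have h1 := hs r' hr'M
    have e1 : B * (M * N) = M * (B * N) := by ring
    rw [e1, AVH_re M (B * N) r' hr'M (fun v => w (v : ℤ))] at h1
    refine h1.trans (le_of_eq ?_)
    apply Finset.sum_congr rfl
    intro u _
    rw [hg]
    show w (((r' + M * u : ℕ)) : ℤ) = w (r + M * (u : ℤ))
    rw [hr']
    push_cast
    rfl
  have hAV := hAV1 N T B z κ ε hB1 hT1 hκ hκ1 hε hε1 hzabs hT2 hT3 g (fun x => hw _) hsum
  rw [AVH_re M N ρ hρ (fun x => max 0 (sm M T w ((B : ℤ) * x - (A : ℤ) * (y % M : ℕ)) - 2 * κ))]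
  have hkey : ∀ x ∈ range N, (∑ t ∈ range T, g (z + (B : ℤ) * x + t)) / T - 2 * κ ≤
      max 0 (sm M T w ((B : ℤ) * (ρ + M * x : ℕ) - (A : ℤ) * (y % M : ℕ)) - 2 * κ) := by
    intro x _
    unfold sm
    refine le_trans (le_of_eq ?_) (le_max_right _ _)
    congr 2
    apply Finset.sum_congr rfl
    intro t _
    rw [hg]
    show w (r + M * (z + (B : ℤ) * x + t)) = w _
    congr 1
    have e2 : (r : ℤ) + M * (z + (B : ℤ) * x + t) = (r + M * z) + M * ((B : ℤ) * x) + M * t := by ring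
    rw [e2, hzr, hz']
    push_cast
    ring
  have hfin := Finset.sum_le_sum hkey
  rw [Finset.sum_sub_distrib] at hfin
  simp only [Finset.sum_const, Finset.card_range, nsmul_eq_mul] at hfin
  have e3 : (ε - 5 * κ) * N = (ε - 3 * κ) * N - (N : ℝ) * (2 * κ) := by ring
  rw [e3]
  linarith

end Pool.Agent.OV
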