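import Pool.Agent.helper38.OV.Spec
import Pool.Agent.helper85.FC.Cor

set_option autoImplicit false

namespace Pool.Agent.OV

open Finset Real Pool.Agent.AT Pool.Agent.helper85.FC Pool.Agent.OM

theorem EXP_sym {ε : ℝ} {a b : ℕ} (h : Dens ε a b) : Dens ε b a := by
  classical
  obtain ⟨q, s, hq, hs, h⟩ := h
  have hq0 : (0 : ℤ) < q := by exact_mod_cast hq
  have h1 := Int.emod_lt_of_pos (-(s : ℤ)) hq0
  have h2 := Int.emod_nonneg (-(s : ℤ)) hq0.ne'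
  refine ⟨q, ((-(s : ℤ)) % q).toNat, hq, by omega, fun X₀ => ?_⟩
  obtain ⟨X, hX, hc⟩ := h X₀
  refine ⟨X, hX, hc.trans ?_⟩
  have h3 : #{c ∈ Icc (-(X : ℤ)) (X : ℤ) | c % (q : ℤ) = s ∧ TrueCase b a c} ≤
      #{c ∈ Icc (-(X : ℤ)) (X : ℤ) | c % (q : ℤ) = (((-(s : ℤ)) % q).toNat : ℤ) ∧ TrueCase a b c} := by
    refine card_le_card_of_injOn (fun c => -c) ?_ (fun x _ y _ hxy => neg_injective hxy)
    intro c hc
    rw [mem_coe, mem_filter, mem_Icc] at hc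
    show -c ∈ _
    rw [mem_coe, mem_filter, mem_Icc]
    refine ⟨⟨by omega, by omega⟩, ?_, hc.2.2.symm⟩
    rw [Int.toNat_of_nonneg h2, ← hc.2.1]
    exact (Int.mod_modEq c q).neg.symm
  have h4 : ((#{c ∈ Icc (-(X : ℤ)) (X : ℤ) | c % (q : ℤ) = s ∧ TrueCase b a c} : ℕ) : ℝ) ≤
      (#{c ∈ Icc (-(X : ℤ)) (X : ℤ) | c % (q : ℤ) = (((-(s : ℤ)) % q).toNat : ℤ) ∧ TrueCase a b c} : ℕ) := by
    exact_mod_cast h3
  exact mul_le_mul_of_nonneg_left h4 (Nat.cast_nonneg _)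

theorem EXP_na (a b m : ℕ) (hab : Nat.Coprime a b) : na a b 1 1 m = a ^ m := by
  unfold na
  rw [one_mul, one_mul, Nat.Coprime.gcd_eq_one (Nat.Coprime.pow m m hab), Nat.div_one]

theorem EXP_nb (a b m : ℕ) (hab : Nat.Coprime a b) : nb a b 1 1 m = b ^ m := by
  unfold nb
  rw [one_mul, one_mul, Nat.Coprime.gcd_eq_one (Nat.Coprime.pow m m hab), Nat.div_one]

/-- good multiples of `r` for large `r` -/
theorem EXP_key (h : OMEGAS) (ε : ℝ) (hε : 0 < ε) : ∃ L : ℕ, ∀ a b : ℕ, 1 ≤ a → 1 ≤ b →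
    Nat.Coprime a b → a < b → ∃ r₀ : ℕ, ∀ r, r₀ ≤ r → ∃ m ∈ Ico 1 L, Dens ε (a ^ (r * m)) (b ^ (r * m)) := by
  classical
  obtain ⟨L, δ, lam, hδ, hlam, hL⟩ := h ε hε 1 le_rfl
  refine ⟨L, fun a b ha hb hab hlt => ?_⟩
  have hb0 : (0 : ℝ) < b := by exact_mod_cast hb
  have hq : (a : ℝ) / b < 1 := by
    rw [div_lt_one hb0]
    exact_mod_cast hlt
  obtain ⟨r₀, hr₀⟩ := exists_pow_lt_of_lt_one hlam hq
  refine ⟨r₀, fun r hr => ?_⟩
  have h1 : ((a : ℝ) / b) ^ r ≤ lam :=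
    (pow_le_pow_of_le_one (by positivity) hq.le hr).trans hr₀.le
  rw [div_pow, div_le_iff₀ (by positivity)] at h1
  have hab' : Nat.Coprime (a ^ r) (b ^ r) := Nat.Coprime.pow r r hab
  have h2 := hL (a ^ r) (b ^ r) (Nat.one_le_pow _ _ ha) hab' (by push_cast; exact h1) {1}
    (fun s hs => (mem_singleton.mp hs).ge) (fun s hs s' hs' => by
      rw [mem_singleton.mp hs, mem_singleton.mp hs'])
  rw [card_singleton, Nat.cast_one, one_pow, mul_one] at h2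
  have h3 := hδ.trans_le h2
  have h4 := Nat.cast_pos.mp h3
  obtain ⟨t, ht⟩ := card_pos.mp h4
  rw [mem_filter, mem_product, mem_singleton, mem_singleton] at ht
  obtain ⟨⟨ht1, ht2⟩, m, hm, hD⟩ := ht
  rw [ht1, ht2, EXP_na _ _ _ hab', EXP_nb _ _ _ hab', ← pow_mul, ← pow_mul] at hD
  exact ⟨m, hm, hD⟩

theorem EXP : EXP_stmt := by
  classical
  intro h ε hε
  obtain ⟨L, hL⟩ := EXP_key h ε hε
  refine ⟨1 / (2 * ((L : ℝ) + 1) ^ 2), by positivity, fun a b ha hb hab hne => ?_⟩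
  obtain ⟨r₀, hr₀⟩ : ∃ r₀ : ℕ, ∀ r, r₀ ≤ r → ∃ m ∈ Ico 1 L, Dens ε (a ^ (r * m)) (b ^ (r * m)) := by
    rcases lt_or_gt_of_ne hne with hlt | hlt
    · exact hL a b ha hb hab hlt
    · obtain ⟨r₀, hr₀⟩ := hL b a hb ha hab.symm hlt
      refine ⟨r₀, fun r hr => ?_⟩
      obtain ⟨m, hm, hD⟩ := hr₀ r hr
      exact ⟨m, hm, EXP_sym hD⟩
  refine ⟨4 * L * (r₀ + 1), fun N hN => ?_⟩
  have hL1 : 0 < L := by
    obtain ⟨m, h2, _⟩ := hr₀ r₀ le_rfl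
    rw [mem_Ico] at h2
    omega
  choose! m hm hmG using hr₀
  have hm1 : ∀ r, r₀ ≤ r → 1 ≤ m r := fun r hr => (mem_Ico.mp (hm r hr)).1
  have hmL : ∀ r, r₀ ≤ r → m r < L := fun r hr => (mem_Ico.mp (hm r hr)).2
  have hcard : N / L - r₀ ≤ L * #{m ∈ Icc 1 N | Dens ε (a ^ m) (b ^ m)} := by
    have h1 : #(Icc (r₀ + 1) (N / L)) ≤ #(range L ×ˢ {m ∈ Icc 1 N | Dens ε (a ^ m) (b ^ m)}) := by
      refine card_le_card_of_injOn (fun r => (m r, r * m r)) ?_ ?_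
      · intro r hr
        rw [mem_coe, mem_Icc] at hr
        have hr1 : r₀ ≤ r := by omega
        have h2 : r * m r ≤ N := by
          calc r * m r ≤ N / L * L := Nat.mul_le_mul hr.2 (hmL r hr1).le
            _ ≤ N := Nat.div_mul_le_self N L
        rw [mem_coe, mem_product, mem_range, mem_filter, mem_Icc]
        exact ⟨hmL r hr1, ⟨Nat.mul_pos (by omega) (hm1 r hr1), h2⟩, hmG r hr1⟩
      · intro r hr s hs hrs
        rw [mem_coe, mem_Icc] at hr hs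
        simp only [Prod.mk.injEq] at hrs
        have h3 : r * m r = s * m r := by rw [hrs.2, hrs.1]
        exact Nat.eq_of_mul_eq_mul_right (hm1 r (by omega)) h3
    rw [Nat.card_Icc, card_product, card_range] at h1
    omega
  have hLR : (0 : ℝ) < L := by exact_mod_cast hL1
  have h4 : (N : ℝ) / L < ((N / L : ℕ) : ℝ) + 1 := Nat.lt_floor_add_one ((N : ℝ) / L) |>.trans_eq (by rw [Nat.floor_div_natCast, Nat.floor_natCast])
  have h5 : (4 : ℝ) * L * (r₀ + 1) ≤ N := by exact_mod_cast hN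
  have h6 : (4 : ℝ) * (r₀ + 1) ≤ (N : ℝ) / L := by
    rw [le_div_iff₀ hLR]
    linarith
  have h7 : ((N / L : ℕ) : ℝ) ≤ L * (#{m ∈ Icc 1 N | Dens ε (a ^ m) (b ^ m)} : ℝ) + r₀ := by
    have : N / L ≤ L * #{m ∈ Icc 1 N | Dens ε (a ^ m) (b ^ m)} + r₀ := by omega
    exact_mod_cast this
  have h0 : (0 : ℝ) ≤ (r₀ : ℝ) := Nat.cast_nonneg _
  have h8 : (N : ℝ) / L ≤ 2 * (L * (#{m ∈ Icc 1 N | Dens ε (a ^ m) (b ^ m)} : ℝ)) := by linarith
  rw [div_le_iff₀ hLR] at h8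
  have h9 : (0 : ℝ) ≤ (#{m ∈ Icc 1 N | Dens ε (a ^ m) (b ^ m)} : ℝ) := Nat.cast_nonneg _
  rw [div_mul_eq_mul_div, one_mul, div_le_iff₀ (by positivity)]
  nlinarith [mul_nonneg h9 hLR.le]

end Pool.Agent.OV
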