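import Pool.Agent.helper38.OV.Spec

set_option autoImplicit false

namespace Pool.Agent.OV

open Finset Real Pool.Agent.AT Pool.Agent.helper85.FC Pool.Agent.OM

/-- few pairs have a large greatest common divisor -/
theorem POS_gcd (n G : ℕ) (hn : 1 ≤ n) (hG : 1 ≤ G) :
    ((#{t ∈ Icc n (2 * n) ×ˢ Icc n (2 * n) | G < Nat.gcd t.1 t.2} : ℕ) : ℝ) ≤ 4 * (n : ℝ) ^ 2 / G := by
  classical
  have hsub : ({t ∈ Icc n (2 * n) ×ˢ Icc n (2 * n) | G < Nat.gcd t.1 t.2} : Finset (ℕ × ℕ)) ⊆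
      (Ioc G (2 * n)).biUnion fun g => ({s ∈ Ioc 0 (2 * n) | g ∣ s} ×ˢ {s ∈ Ioc 0 (2 * n) | g ∣ s}) := by
    intro t ht
    rw [mem_filter, mem_product, mem_Icc, mem_Icc] at ht
    obtain ⟨⟨⟨h1, h2⟩, h3, h4⟩, h5⟩ := ht
    rw [mem_biUnion]
    refine ⟨Nat.gcd t.1 t.2, ?_, ?_⟩
    · rw [mem_Ioc]
      exact ⟨h5, (Nat.le_of_dvd (by omega) (Nat.gcd_dvd_left _ _)).trans h2⟩
    · rw [mem_product, mem_filter, mem_filter, mem_Ioc, mem_Ioc]
      exact ⟨⟨⟨by omega, h2⟩, Nat.gcd_dvd_left _ _⟩, ⟨by omega, h4⟩, Nat.gcd_dvd_right _ _⟩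
  have h1 : (#{t ∈ Icc n (2 * n) ×ˢ Icc n (2 * n) | G < Nat.gcd t.1 t.2} : ℕ) ≤
      ∑ g ∈ Ioc G (2 * n), (2 * n / g) * (2 * n / g) := by
    refine (card_le_card hsub).trans (card_biUnion_le.trans (le_of_eq ?_))
    refine sum_congr rfl fun g _ => ?_
    rw [card_product, Nat.Ioc_filter_dvd_card_eq_div]
  have h2 : ((#{t ∈ Icc n (2 * n) ×ˢ Icc n (2 * n) | G < Nat.gcd t.1 t.2} : ℕ) : ℝ) ≤
      ∑ g ∈ Ioc G (2 * n), 4 * (n : ℝ) ^ 2 * ((g : ℝ) ^ 2)⁻¹ := by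
    have h3 : ((#{t ∈ Icc n (2 * n) ×ˢ Icc n (2 * n) | G < Nat.gcd t.1 t.2} : ℕ) : ℝ) ≤
        ((∑ g ∈ Ioc G (2 * n), (2 * n / g) * (2 * n / g) : ℕ) : ℝ) := by exact_mod_cast h1
    refine h3.trans ?_
    rw [Nat.cast_sum]
    refine sum_le_sum fun g hg => ?_
    have hg0 : (0 : ℝ) < g := by
      have := (mem_Ioc.mp hg).1
      have h4 : 0 < g := by omega
      exact_mod_cast h4
    have h5 : ((2 * n / g : ℕ) : ℝ) ≤ 2 * n / g := by
      have := Nat.cast_div_le (α := ℝ) (m := 2 * n) (n := g)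
      push_cast at this ⊢
      exact this
    rw [Nat.cast_mul]
    calc ((2 * n / g : ℕ) : ℝ) * ((2 * n / g : ℕ) : ℝ) ≤ (2 * n / g) * (2 * n / g) :=
          mul_le_mul h5 h5 (Nat.cast_nonneg _) (by positivity)
      _ = 4 * (n : ℝ) ^ 2 * ((g : ℝ) ^ 2)⁻¹ := by
          field_simp
          ring
  refine h2.trans ?_
  rw [← mul_sum, div_eq_mul_inv]
  refine mul_le_mul_of_nonneg_left ?_ (by positivity)
  rcases le_or_gt G (2 * n) with hle | hlt
  · have h3 := sum_Ioc_inv_sq_le_sub (α := ℝ) (k := G) (n := 2 * n) (by omega) hle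
    refine h3.trans ?_
    have h4 : (0 : ℝ) ≤ ((2 * n : ℕ) : ℝ)⁻¹ := by positivity
    linarith
  · rw [Ioc_eq_empty (by omega), sum_empty]
    positivity

/-- a pair is determined by its ratio and its greatest common divisor -/
theorem POS_inj {s s' t t' : ℕ} (hs : 1 ≤ s) (h : s * t' = t * s')
    (hg : Nat.gcd s s' = Nat.gcd t t') : s = t ∧ s' = t' := by
  have hg0 : 0 < Nat.gcd s s' := Nat.gcd_pos_of_pos_left _ (by omega)
  obtain ⟨u, hu⟩ := Nat.gcd_dvd_left s s'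
  obtain ⟨v, hv⟩ := Nat.gcd_dvd_right s s'
  obtain ⟨x, hx⟩ := Nat.gcd_dvd_left t t'
  obtain ⟨y, hy⟩ := Nat.gcd_dvd_right t t'
  rw [← hg] at hx hy
  set g := Nat.gcd s s' with hgdef
  have huv : Nat.Coprime u v := by
    have h1 : g * Nat.gcd u v = g := by
      rw [← Nat.gcd_mul_left, ← hu, ← hv]
    exact Nat.eq_of_mul_eq_mul_left hg0 (by rw [h1, mul_one])
  have hxy : Nat.Coprime x y := by
    have h1 : g * Nat.gcd x y = g := by
      rw [← Nat.gcd_mul_left, ← hx, ← hy, ← hg]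
    exact Nat.eq_of_mul_eq_mul_left hg0 (by rw [h1, mul_one])
  have h2 : u * y = x * v := by
    rw [hu, hv, hx, hy] at h
    have h3 : (g * g) * (u * y) = (g * g) * (x * v) := by
      calc (g * g) * (u * y) = g * u * (g * y) := by ring
        _ = g * x * (g * v) := h
        _ = (g * g) * (x * v) := by ring
    exact Nat.eq_of_mul_eq_mul_left (Nat.mul_pos hg0 hg0) h3
  have h3 : u ∣ x := huv.dvd_of_dvd_mul_right (by rw [← h2]; exact dvd_mul_right _ _)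
  have h4 : x ∣ u := hxy.dvd_of_dvd_mul_right (by rw [h2]; exact dvd_mul_right _ _)
  have h5 : u = x := Nat.dvd_antisymm h3 h4
  have hu0 : 0 < u := by
    rcases Nat.eq_zero_or_pos u with h0 | h0
    · rw [h0, mul_zero] at hu
      omega
    · exact h0
  have h6 : y = v := by
    rw [← h5] at h2
    exact Nat.eq_of_mul_eq_mul_left hu0 h2
  exact ⟨by rw [hu, hx, h5], by rw [hv, hy, h6]⟩

theorem POS : POS_stmt := by
  classical
  intro h ε hε
  obtain ⟨L, δ, lam, hδ, hlam, hO⟩ := h ε hε 2 (by norm_num)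
  set b : ℕ := ⌈1 / lam⌉₊ with hb
  have hb1 : 1 ≤ b := Nat.one_le_ceil_iff.mpr (by positivity)
  have hlb : ((1 : ℕ) : ℝ) ≤ lam * b := by
    have h1 : 1 / lam ≤ (b : ℝ) := Nat.le_ceil _
    rw [div_le_iff₀ hlam] at h1
    rw [Nat.cast_one]
    linarith
  set G : ℕ := ⌈8 / δ⌉₊ with hG
  have hG1 : 1 ≤ G := Nat.one_le_ceil_iff.mpr (by positivity)
  have hG2 : 8 / δ ≤ (G : ℝ) := Nat.le_ceil _
  have hbL : 1 ≤ b ^ L := Nat.one_le_pow _ _ hb1
  have hbL' : (1 : ℝ) ≤ (b : ℝ) ^ L := by exact_mod_cast hbL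
  refine ⟨δ / (2 * (L + 1) * (G + 1) * (16 * ((b : ℝ) ^ L) ^ 2)), by positivity, 2 * b ^ L, fun N hN => ?_⟩
  set n : ℕ := N / (2 * b ^ L) with hn
  have hn1 : 1 ≤ n := (Nat.one_le_div_iff (by omega)).mpr hN
  have hn2 : n * (2 * b ^ L) ≤ N := Nat.div_mul_le_self _ _
  have hn3 : N < (n + 1) * (2 * b ^ L) := by
    rw [hn]
    have := Nat.lt_mul_div_succ N (show 0 < 2 * b ^ L by omega)
    rw [Nat.mul_comm]
    exact this
  have hNn : (N : ℝ) ≤ 4 * (b : ℝ) ^ L * n := by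
    have h1 : (N : ℝ) < ((n : ℝ) + 1) * (2 * (b : ℝ) ^ L) := by exact_mod_cast hn3
    have h2 : (1 : ℝ) ≤ n := by exact_mod_cast hn1
    nlinarith
  set S : Finset ℕ := Icc n (2 * n) with hS
  set GG : Finset (ℕ × ℕ) := {t ∈ S ×ˢ S | ∃ m ∈ Ico 1 L, Dens ε (na 1 b t.1 t.2 m) (nb 1 b t.1 t.2 m)} with hGG
  have hO1 : δ * (#S : ℝ) ^ 2 ≤ #GG := by
    refine hO 1 b le_rfl (Nat.coprime_one_left b) hlb S (fun s hs => ?_) (fun s hs s' hs' => ?_)
    · have := (mem_Icc.mp hs).1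
      omega
    · have h1 := (mem_Icc.mp hs).2
      have h2 := (mem_Icc.mp hs').1
      omega
  have hS1 : (n : ℝ) ≤ #S := by
    rw [hS, Nat.card_Icc]
    have : n ≤ 2 * n + 1 - n := by omega
    exact_mod_cast this
  set GB : Finset (ℕ × ℕ) := {t ∈ S ×ˢ S | G < Nat.gcd t.1 t.2} with hGB
  have hGB1 : (#GB : ℝ) ≤ δ / 2 * (n : ℝ) ^ 2 := by
    refine (POS_gcd n G hn1 hG1).trans ?_
    have hG0 : (0 : ℝ) < G := by exact_mod_cast hG1
    rw [div_le_iff₀ hG0]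
    rw [div_le_iff₀ hδ] at hG2
    have : 0 ≤ (n : ℝ) ^ 2 := by positivity
    nlinarith
  set G' : Finset (ℕ × ℕ) := GG \ GB with hG'
  have hG'1 : δ / 2 * (n : ℝ) ^ 2 ≤ #G' := by
    have h1 : (#GG : ℝ) ≤ #G' + #GB := by
      have := le_card_sdiff GB GG
      have h2 : #GG ≤ #G' + #GB := by
        rw [hG']
        omega
      exact_mod_cast h2
    have h2 : δ * (n : ℝ) ^ 2 ≤ δ * (#S : ℝ) ^ 2 :=
      mul_le_mul_of_nonneg_left (pow_le_pow_left₀ (by positivity) hS1 2) hδ.le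
    linarith
  -- the choice of `m`
  have hmem : ∀ t ∈ G', (t.1 ∈ Icc n (2 * n) ∧ t.2 ∈ Icc n (2 * n)) ∧ Nat.gcd t.1 t.2 ≤ G ∧
      ∃ m ∈ Ico 1 L, Dens ε (na 1 b t.1 t.2 m) (nb 1 b t.1 t.2 m) := by
    intro t ht
    rw [hG', mem_sdiff, hGG, mem_filter, mem_product, hGB, mem_filter, mem_product] at ht
    refine ⟨ht.1.1, ?_, ht.1.2⟩
    by_contra hcon
    exact ht.2 ⟨ht.1.1, by omega⟩
  choose! m hmI hmD using fun t (ht : t ∈ G') => (hmem t ht).2.2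
  set TT : Finset (ℕ × ℕ) := {t ∈ Icc 1 N ×ˢ Icc 1 N | Nat.Coprime t.1 t.2 ∧ Dens ε t.1 t.2} with hTT
  have hcard : #G' ≤ (L + 1) * ((G + 1) * #TT) := by
    have h1 : #G' ≤ #(range (L + 1) ×ˢ (range (G + 1) ×ˢ TT)) := by
      refine card_le_card_of_injOn (fun t => (m t, Nat.gcd t.1 t.2, na 1 b t.1 t.2 (m t), nb 1 b t.1 t.2 (m t))) ?_ ?_
      · intro t ht
        have ht' : t ∈ G' := ht
        obtain ⟨⟨hs, hs'⟩, hg, -⟩ := hmem t ht'
        have hmI' := mem_Ico.mp (hmI t ht')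
        have hD := hmD t ht'
        rw [mem_Icc] at hs hs'
        have hpos1 : 0 < t.1 * 1 ^ m t := Nat.mul_pos (by omega) (by simp)
        have hpos2 : 0 < t.2 * b ^ m t := Nat.mul_pos (by omega) (Nat.pow_pos hb1)
        have hgpos : 0 < Nat.gcd (t.1 * 1 ^ m t) (t.2 * b ^ m t) := Nat.gcd_pos_of_pos_left _ hpos1
        show (m t, Nat.gcd t.1 t.2, na 1 b t.1 t.2 (m t), nb 1 b t.1 t.2 (m t)) ∈ range (L + 1) ×ˢ (range (G + 1) ×ˢ TT)
        rw [mem_product, mem_product, mem_range, mem_range, hTT, mem_filter, mem_product, mem_Icc, mem_Icc]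
        have hna1 : 1 ≤ na 1 b t.1 t.2 (m t) :=
          Nat.div_pos (Nat.le_of_dvd hpos1 (Nat.gcd_dvd_left _ _)) hgpos
        have hnb1 : 1 ≤ nb 1 b t.1 t.2 (m t) :=
          Nat.div_pos (Nat.le_of_dvd hpos2 (Nat.gcd_dvd_right _ _)) hgpos
        have hna2 : na 1 b t.1 t.2 (m t) ≤ N := by
          refine (Nat.div_le_self _ _).trans ?_
          rw [one_pow, mul_one]
          have h2 : n * 2 ≤ n * (2 * b ^ L) := Nat.mul_le_mul_left n (by omega)
          omega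
        have hnb2 : nb 1 b t.1 t.2 (m t) ≤ N := by
          refine (Nat.div_le_self _ _).trans ?_
          have h2 : b ^ m t ≤ b ^ L := Nat.pow_le_pow_right hb1 (by omega)
          calc t.2 * b ^ m t ≤ (2 * n) * b ^ L := Nat.mul_le_mul hs'.2 h2
            _ = n * (2 * b ^ L) := by ring
            _ ≤ N := hn2
        refine ⟨Nat.lt_succ_of_lt hmI'.2, Nat.lt_succ_of_le hg, ⟨⟨hna1, hna2⟩, hnb1, hnb2⟩, ?_, hD⟩
        exact Nat.coprime_div_gcd_div_gcd hgpos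
      · intro t ht u hu htu
        have ht' : t ∈ G' := ht
        have hu' : u ∈ G' := hu
        obtain ⟨⟨hs, hs'⟩, -, -⟩ := hmem t ht'
        obtain ⟨⟨hu1, hu2⟩, -, -⟩ := hmem u hu'
        rw [mem_Icc] at hs hs' hu1 hu2
        simp only [Prod.mk.injEq] at htu
        obtain ⟨e1, e2, e3, e4⟩ := htu
        have hrel : ∀ s s' k : ℕ, s * nb 1 b s s' k = s' * b ^ k * na 1 b s s' k := by
          intro s s' k
          obtain ⟨x, hx⟩ := Nat.gcd_dvd_left (s * 1 ^ k) (s' * b ^ k)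
          obtain ⟨y, hy⟩ := Nat.gcd_dvd_right (s * 1 ^ k) (s' * b ^ k)
          unfold na nb
          rcases Nat.eq_zero_or_pos (Nat.gcd (s * 1 ^ k) (s' * b ^ k)) with h0 | h0
          · rw [h0, Nat.div_zero, Nat.div_zero, mul_zero, mul_zero]
          · have hx' : s * 1 ^ k / Nat.gcd (s * 1 ^ k) (s' * b ^ k) = x := Nat.div_eq_of_eq_mul_right h0 hx
            have hy' : s' * b ^ k / Nat.gcd (s * 1 ^ k) (s' * b ^ k) = y := Nat.div_eq_of_eq_mul_right h0 hy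
            rw [hx', hy']
            have hs1 : s = Nat.gcd (s * 1 ^ k) (s' * b ^ k) * x := by
              rw [← hx, one_pow, mul_one]
            calc s * y = Nat.gcd (s * 1 ^ k) (s' * b ^ k) * x * y := by rw [← hs1]
              _ = (Nat.gcd (s * 1 ^ k) (s' * b ^ k) * y) * x := by ring
              _ = s' * b ^ k * x := by rw [← hy]
        have r1 := hrel t.1 t.2 (m t)
        have r2 := hrel u.1 u.2 (m u)
        rw [← e1] at e3 e4 r2
        rw [← e3, ← e4] at r2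
        set A := na 1 b t.1 t.2 (m t) with hA
        set B := nb 1 b t.1 t.2 (m t) with hB
        have hpos1 : 0 < t.1 * 1 ^ m t := Nat.mul_pos (by omega) (by simp)
        have hpos2 : 0 < t.2 * b ^ m t := Nat.mul_pos (by omega) (Nat.pow_pos hb1)
        have hgpos : 0 < Nat.gcd (t.1 * 1 ^ m t) (t.2 * b ^ m t) := Nat.gcd_pos_of_pos_left _ hpos1
        have hA1 : 0 < A := Nat.div_pos (Nat.le_of_dvd hpos1 (Nat.gcd_dvd_left _ _)) hgpos
        have hB1 : 0 < B := Nat.div_pos (Nat.le_of_dvd hpos2 (Nat.gcd_dvd_right _ _)) hgpos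
        have hb0 : 0 < b ^ m t := Nat.pow_pos hb1
        have hcross : t.1 * u.2 = u.1 * t.2 := by
          have h2 : (t.1 * u.2) * (B * (b ^ m t * A)) = (u.1 * t.2) * (B * (b ^ m t * A)) := by
            calc (t.1 * u.2) * (B * (b ^ m t * A)) = (t.1 * B) * (u.2 * b ^ m t * A) := by ring
              _ = (t.2 * b ^ m t * A) * (u.1 * B) := by rw [r1, r2]
              _ = (u.1 * t.2) * (B * (b ^ m t * A)) := by ring
          exact Nat.eq_of_mul_eq_mul_right (Nat.mul_pos hB1 (Nat.mul_pos hb0 hA1)) h2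
        obtain ⟨f1, f2⟩ := POS_inj (by omega) hcross e2
        exact Prod.ext f1 f2
    rwa [card_product, card_product, card_range, card_range] at h1
  have hcard' : (#G' : ℝ) ≤ (L + 1) * ((G + 1) * #TT) := by exact_mod_cast hcard
  have h1 : (N : ℝ) ^ 2 ≤ 16 * ((b : ℝ) ^ L) ^ 2 * (n : ℝ) ^ 2 := by
    have h2 := pow_le_pow_left₀ (by positivity) hNn 2
    refine h2.trans (le_of_eq ?_)
    ring
  rw [div_mul_eq_mul_div, div_le_iff₀ (by positivity)]
  calc δ * (N : ℝ) ^ 2 ≤ δ * (16 * ((b : ℝ) ^ L) ^ 2 * (n : ℝ) ^ 2) :=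
        mul_le_mul_of_nonneg_left h1 hδ.le
    _ = (δ / 2 * (n : ℝ) ^ 2) * (2 * (16 * ((b : ℝ) ^ L) ^ 2)) := by ring
    _ ≤ ((L + 1) * ((G + 1) * #TT)) * (2 * (16 * ((b : ℝ) ^ L) ^ 2)) :=
        mul_le_mul_of_nonneg_right (hG'1.trans hcard') (by positivity)
    _ = #TT * (2 * (L + 1) * (G + 1) * (16 * ((b : ℝ) ^ L) ^ 2)) := by ring

end Pool.Agent.OV
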